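import Pool.Agent.H31.SG.Param
import Pool.Agent.H36.SC.Contact

/-!
# MP_f4af34, block DICTIONARY: from the pair `(y, z)` to helper31's `ParData`

`PairFull` is exactly what block DD delivers: helper36's `Pair` on the open strip with continuity of
the derivatives, continuity of `y, z, z_x` up to `s = ρ`, and the boundary values.
-/

set_option autoImplicit false
open Filter Topology Set

namespace Pool.Agent.H97.SF

open Pool.Agent.H31.SG Pool.Agent.H36.SC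

/-- the background functions on `(a, ρ]` -/
structure BgFull (a R0 ρ : ℝ) (v0 p q q3 ch ch1 : ℝ → ℝ) : Prop where
  a_pos : 0 < a
  ab : a < R0
  bρ : R0 < ρ
  bg : Bg (Ioo a ρ) v0 p q q3 ch ch1
  cq3 : ContinuousOn q3 (Ioo a ρ)
  cch1 : ContinuousOn ch1 (Ioo a ρ)
  cv0 : ContinuousOn v0 (Ioc a ρ)
  cp : ContinuousOn p (Ioc a ρ)
  cq : ContinuousOn q (Ioc a ρ)
  cch : ContinuousOn ch (Ioc a ρ)
  ch0 : ∀ s, s < R0 → ch s = 0
  v0ρ : v0 ρ = 0
  pρ : p ρ = 0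
  chρ : ch ρ = 1
  qρ : q ρ = 1

/-- the pair with continuity and boundary values -/
structure PairFull (ξ a R0 ρ : ℝ) (v0 p q q3 ch ch1 : ℝ → ℝ) (y ys yx z zx zxx : ℝ × ℝ → ℝ) :
    Prop where
  xi : 1 < ξ
  pair : Pair (Strip ξ a ρ) v0 p q q3 ch ch1 y ys yx z zx zxx
  cys : ContinuousOn ys (Strip ξ a ρ)
  cyx : ContinuousOn yx (Strip ξ a ρ)
  czxx : ContinuousOn zxx (Strip ξ a ρ)
  cy : ContinuousOn y (StripC ξ a ρ)
  cz : ContinuousOn z (StripC ξ a ρ)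
  czx : ContinuousOn zx (StripC ξ a ρ)
  z0 : ∀ x ∈ Icc (-1 : ℝ) 1, z (ρ, x) = 0
  zx0 : ∀ x ∈ Icc (-1 : ℝ) 1, zx (ρ, x) = 0
  rs_pos : ∀ t ∈ Strip ξ a ρ, 0 < 1 + (ch1 t.1 * y t + ch t.1 * ys t)
  r_pos : ∀ t ∈ Strip ξ a ρ, 0 < t.1 + ch t.1 * y t

theorem lin_eq_hd (a b : ℝ) : lin a b = hd a b := by
  ext <;> simp

variable {ξ a R0 ρ : ℝ} {v0 p q q3 ch ch1 : ℝ → ℝ} {y ys yx z zx zxx : ℝ × ℝ → ℝ}

theorem comp_fst_strip {g : ℝ → ℝ} (h : ContinuousOn g (Ioo a ρ)) :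
    ContinuousOn (fun t : ℝ × ℝ => g t.1) (Strip ξ a ρ) :=
  h.comp continuousOn_fst fun _ ht => ht.1

theorem comp_fst_stripC {g : ℝ → ℝ} (h : ContinuousOn g (Ioc a ρ)) :
    ContinuousOn (fun t : ℝ × ℝ => g t.1) (StripC ξ a ρ) :=
  h.comp continuousOn_fst fun _ ht => ht.1

/-- From the pair to the parametric data. -/
theorem parData (B : BgFull a R0 ρ v0 p q q3 ch ch1)
    (P : PairFull ξ a R0 ρ v0 p q q3 ch ch1 y ys yx z zx zxx) :
    ParData ξ a R0 ρ 1 (cX ch y) (cXs ch ch1 y ys) (cXx ch yx) (cG v0 p q ch y z) (cf p q ch y)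
      (ch' zx) (cfs q q3 ch ch1 y ys) (cfx q ch yx) (chs q3 ch ch1 y yx) (chx zxx) := by
  have sub : Strip ξ a ρ ⊆ StripC ξ a ρ := strip_sub ξ a ρ
  have sub1 : Ioo a ρ ⊆ Ioc a ρ := Ioo_subset_Ioc_self
  have c1 : ContinuousOn (fun t : ℝ × ℝ => ch1 t.1) (Strip ξ a ρ) := comp_fst_strip B.cch1
  have c2 : ContinuousOn (fun t : ℝ × ℝ => ch t.1) (Strip ξ a ρ) := comp_fst_strip (B.cch.mono sub1)
  have c3 : ContinuousOn (fun t : ℝ × ℝ => q3 t.1) (Strip ξ a ρ) := comp_fst_strip B.cq3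
  have c4 : ContinuousOn (fun t : ℝ × ℝ => q t.1) (Strip ξ a ρ) := comp_fst_strip (B.cq.mono sub1)
  have cyS := P.cy.mono sub
  have d0 : ContinuousOn (fun t : ℝ × ℝ => v0 t.1) (StripC ξ a ρ) := comp_fst_stripC B.cv0
  have d1 : ContinuousOn (fun t : ℝ × ℝ => p t.1) (StripC ξ a ρ) := comp_fst_stripC B.cp
  have d2 : ContinuousOn (fun t : ℝ × ℝ => q t.1) (StripC ξ a ρ) := comp_fst_stripC B.cq
  have d3 : ContinuousOn (fun t : ℝ × ℝ => ch t.1) (StripC ξ a ρ) := comp_fst_stripC B.cch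
  have d4 : ContinuousOn (fun t : ℝ × ℝ => t.1) (StripC ξ a ρ) := continuousOn_fst
  constructor
  · exact B.a_pos
  · exact B.ab
  · exact B.bρ
  · exact P.xi
  · intro t ht
    rw [lin_eq_hd]
    exact cX_hd B.bg P.pair ht ht.1
  · intro t ht
    exact P.rs_pos t ht
  · exact continuousOn_const.add ((c1.mul cyS).add (c2.mul P.cys))
  · exact c2.mul P.cyx
  · intro t ht
    rw [lin_eq_hd]
    refine hd_congr (cG_hd B.bg P.pair ht ht.1) rfl (add_comm _ _)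
  · intro t ht
    rw [lin_eq_hd]
    exact cf_hd B.bg P.pair ht ht.1
  · intro t ht
    rw [lin_eq_hd]
    exact ch_hd P.pair ht
  · exact ((c4.sub ((continuousOn_const.sub (c2.mul c4)).mul P.cys)).add
      (((c1.mul c4).add (c2.mul c3)).mul cyS)).neg
  · exact (continuousOn_const.sub (c2.mul c4)).mul P.cyx
  · exact (continuousOn_const.add ((c1.add ((c2.pow 2).mul c3)).mul cyS)).mul P.cyx
  · exact P.czxx.neg
  · exact d4.add (d3.mul P.cy)
  · exact continuousOn_const.sub (((d0.add P.cz).add (d1.mul (d3.mul P.cy))).sub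
      (((continuousOn_const.mul (continuousOn_const.sub (d3.mul d2))).mul P.cy).mul (d3.mul P.cy)))
  · exact (d1.sub ((continuousOn_const.sub (d3.mul d2)).mul P.cy)).neg
  · exact P.czx.neg
  · intro t ht htb
    simp only [cX]
    rw [B.ch0 _ htb]
    ring
  · intro x hx
    simp only [cG]
    rw [B.v0ρ, P.z0 x hx, B.pρ, B.chρ, B.qρ]
    ring
  · intro x hx
    simp only [cf]
    rw [B.pρ, B.chρ, B.qρ]
    ring
  · intro x hx
    simp only [ch']
    rw [P.zx0 x hx, neg_zero]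
  · intro t ht _
    have hX := (P.r_pos t ht).ne'
    have hS := (P.rs_pos t ht).ne'
    have key := c_pde B.bg P.pair ht ht.1 hX hS
    have e1 : 2 / cX ch y t * cf p q ch y t = 2 * cf p q ch y t / cX ch y t := by ring
    have e2 : chs q3 ch ch1 y yx t * cXx ch yx t / cXs ch ch1 y ys t =
      cXx ch yx t * chs q3 ch ch1 y yx t / cXs ch ch1 y ys t := by ring
    rw [e1, e2]
    exact key

end Pool.Agent.H97.SF
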