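import Pool.Agent.H97.SF.PD
import Pool.Agent.H47.SD.Ser
import Pool.Agent.H56.SF.Orth

/-!
# MP_f4af34, block DICTIONARY (DD): mode functions on `(a, ρ]` give the pair `(y, z)`

`Ext` : mode functions `y, z, f1, f2` on `(a, ρ]` with weight `ν ^ k`, the mode equations on `(a, ρ)`
and the two pointwise identities `f1 = κ y² / 2`, `f2 = F2`.
-/

set_option autoImplicit false
open Filter Topology Set Polynomial

namespace Pool.Agent.H97.SF

open Pool.Agent.H31.SG Pool.Agent.H36.SC SD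

/-- the right hand side of the second mode equation -/
noncomputable def yd (y z f2 : ℕ → ℝ → ℝ) (k : ℕ) (s : ℝ) : ℝ :=
  -2 * y k s / s + (1 - (k : ℝ) * ((k : ℝ) + 1) / s ^ 2) * z k s + f2 k s

/-- the half width of the strip -/
noncomputable def xiq (q : ℝ) : ℝ := (q + 1 / q) / 2

/-- Mode functions on `(a, ρ]`. -/
structure Ext (a R0 ρ ν qq : ℝ) (v0 p q q3 ch ch1 : ℝ → ℝ) (y z f1 f2 : ℕ → ℝ → ℝ) : Prop where
  a_pos : 0 < a
  aρ : a < ρ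
  one_lt : 1 < qq
  lt : qq < ν
  hz : ∀ k, ∀ s ∈ Ioo a ρ, HasDerivAt (z k) (-y k s - f1 k s) s
  hy : ∀ k, ∀ s ∈ Ioo a ρ, HasDerivAt (y k) (yd y z f2 k s) s
  cy : ∀ k, ContinuousOn (y k) (Ioc a ρ)
  cz : ∀ k, ContinuousOn (z k) (Ioc a ρ)
  cf1 : ∀ k, ContinuousOn (f1 k) (Ioo a ρ)
  cf2 : ∀ k, ContinuousOn (f2 k) (Ioo a ρ)
  Dy : Dom y (Ioc a ρ) ν 0
  Dz : Dom z (Ioc a ρ) ν 0
  Df1 : Dom f1 (Ioo a ρ) ν 0
  Df2 : Dom f2 (Ioo a ρ) ν 0
  zρ : ∀ k, z k ρ = 0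
  e1 : ∀ s ∈ Ioo a ρ, ∀ x ∈ J qq,
    LS 0 f1 s x = (ch1 s + ch s ^ 2 * q3 s) / 2 * LS 0 y s x ^ 2
  e2 : ∀ s ∈ Ioo a ρ, ∀ x ∈ J qq,
    LS 0 f2 s x = F2 s (v0 s) (p s) (q s) (q3 s) (ch s) (ch1 s) (LS 0 y s x) (LS 0 (yd y z f2) s x)
      (LS 0 z s x) ((1 - x ^ 2) * LS 2 z s x - 2 * x * LS 1 z s x) ((1 - x ^ 2) * LS 1 y s x ^ 2)
  rs_pos : ∀ s ∈ Ioo a ρ, ∀ x ∈ J qq, 0 < 1 + (ch1 s * LS 0 y s x + ch s * LS 0 (yd y z f2) s x)
  r_pos : ∀ s ∈ Ioo a ρ, ∀ x ∈ J qq, 0 < s + ch s * LS 0 y s x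

/-- sums of dominated families -/
theorem Dom.add {f g : ℕ → ℝ → ℝ} {I : Set ℝ} {q : ℝ} {m : ℕ} (hf : Dom f I q m) (hg : Dom g I q m) :
    Dom (fun k s => f k s + g k s) I q m := by
  obtain ⟨B, h1, h2⟩ := hf
  obtain ⟨C, h3, h4⟩ := hg
  refine ⟨fun k => B k + C k, fun k s hs => (abs_add_le _ _).trans (add_le_add (h1 k s hs) (h3 k s hs)), ?_⟩
  refine (h2.add h4).congr fun k => ?_
  ring

theorem Dom.neg {f : ℕ → ℝ → ℝ} {I : Set ℝ} {q : ℝ} {m : ℕ} (hf : Dom f I q m) :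
    Dom (fun k s => -f k s) I q m := by
  obtain ⟨B, h1, h2⟩ := hf
  exact ⟨B, fun k s hs => by rw [abs_neg]; exact h1 k s hs, h2⟩

/-- multiplication by a bounded function -/
theorem Dom.bmul {f : ℕ → ℝ → ℝ} {I : Set ℝ} {q : ℝ} {m : ℕ} (hf : Dom f I q m) {c : ℝ → ℝ} {C : ℝ}
    (hc : ∀ s ∈ I, |c s| ≤ C) : Dom (fun k s => c s * f k s) I q m := by
  rcases I.eq_empty_or_nonempty with rfl | hI
  · exact ⟨fun _ => 0, fun k s hs => absurd hs (notMem_empty s), by simp⟩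
  obtain ⟨B, h1, h2⟩ := hf
  obtain ⟨s0, hs0⟩ := hI
  have hC : 0 ≤ C := (abs_nonneg _).trans (hc s0 hs0)
  refine ⟨fun k => C * B k, fun k s hs => ?_, ?_⟩
  · rw [abs_mul]
    exact mul_le_mul (hc s hs) (h1 k s hs) (abs_nonneg _) hC
  · refine (h2.mul_left C).congr fun k => ?_
    ring

/-- multiplication by `k (k + 1)` costs two powers -/
theorem Dom.lam {f : ℕ → ℝ → ℝ} {I : Set ℝ} {q : ℝ} {m : ℕ} (hf : Dom f I q (m + 2)) :
    Dom (fun k s => (k : ℝ) * ((k : ℝ) + 1) * f k s) I q m := by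
  rcases I.eq_empty_or_nonempty with rfl | hI
  · exact ⟨fun _ => 0, fun k s hs => absurd hs (notMem_empty s), by simp⟩
  obtain ⟨B, h0, h1, h2⟩ := hf.nonneg hI
  refine ⟨fun k => ((k : ℝ) + 1) ^ 2 * B k, fun k s hs => ?_, ?_⟩
  · have hk : (0 : ℝ) ≤ (k : ℝ) := Nat.cast_nonneg k
    rw [abs_mul, abs_of_nonneg (by positivity)]
    exact mul_le_mul (by nlinarith) (h1 k s hs) (abs_nonneg _) (by positivity)
  · refine h2.congr fun k => ?_
    ring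

section

variable {a R0 ρ ν qq : ℝ} {v0 p q q3 ch ch1 : ℝ → ℝ} {y z f1 f2 : ℕ → ℝ → ℝ}

theorem Ext.q_pos (h : Ext a R0 ρ ν qq v0 p q q3 ch ch1 y z f1 f2) : 0 < qq := by linarith [h.one_lt]

theorem Ext.q_le (h : Ext a R0 ρ ν qq v0 p q q3 ch ch1 y z f1 f2) : 1 ≤ qq := h.one_lt.le

theorem Ext.dom {g : ℕ → ℝ → ℝ} {I : Set ℝ} (h : Ext a R0 ρ ν qq v0 p q q3 ch ch1 y z f1 f2)
    (hg : Dom g I ν 0) (m : ℕ) : Dom g I qq m := hg.of_lt m h.q_pos.le h.lt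

theorem Ext.sub (_ : Ext a R0 ρ ν qq v0 p q q3 ch ch1 y z f1 f2) : Ioo a ρ ⊆ Ioc a ρ :=
  Ioo_subset_Ioc_self

/-- the derivative family of `z` -/
theorem Ext.Dz' (h : Ext a R0 ρ ν qq v0 p q q3 ch ch1 y z f1 f2) (m : ℕ) :
    Dom (fun k s => -y k s - f1 k s) (Ioo a ρ) qq m := by
  have h1 := Dom.neg ((h.dom h.Dy m).mono h.sub)
  have h2 := Dom.neg (h.dom h.Df1 m)
  exact Dom.add h1 h2

/-- the derivative family of `y` -/
theorem Ext.Dy' (h : Ext a R0 ρ ν qq v0 p q q3 ch ch1 y z f1 f2) (m : ℕ) :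
    Dom (yd y z f2) (Ioo a ρ) qq m := by
  have hpos : ∀ s ∈ Ioo a ρ, 0 < s := fun s hs => h.a_pos.trans hs.1
  have hinv : ∀ s ∈ Ioo a ρ, |1 / s| ≤ 1 / a := fun s hs => by
    rw [abs_of_pos (one_div_pos.2 (hpos s hs))]
    exact one_div_le_one_div_of_le h.a_pos hs.1.le
  have hinv2 : ∀ s ∈ Ioo a ρ, |1 / s ^ 2| ≤ 1 / a ^ 2 := fun s hs => by
    have h0 := hpos s hs
    rw [abs_of_pos (by positivity)]
    exact one_div_le_one_div_of_le (by have := h.a_pos; positivity)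
      (pow_le_pow_left₀ h.a_pos.le hs.1.le 2)
  have d1 : Dom (fun k s => (1 / s) * y k s) (Ioo a ρ) qq m :=
    Dom.bmul (c := fun s => 1 / s) ((h.dom h.Dy m).mono h.sub) hinv
  have d2 : Dom (fun k s => (-2 : ℝ) * ((1 / s) * y k s)) (Ioo a ρ) qq m :=
    Dom.bmul (c := fun _ => (-2 : ℝ)) (C := 2) d1 (fun s _ => by norm_num)
  have d3 : Dom (fun k s => (k : ℝ) * ((k : ℝ) + 1) * z k s) (Ioo a ρ) qq m :=
    Dom.lam ((h.dom h.Dz (m + 2)).mono h.sub)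
  have d4 : Dom (fun k s => (1 / s ^ 2) * ((k : ℝ) * ((k : ℝ) + 1) * z k s)) (Ioo a ρ) qq m :=
    Dom.bmul (c := fun s => 1 / s ^ 2) d3 hinv2
  have d5 : Dom z (Ioo a ρ) qq m := (h.dom h.Dz m).mono h.sub
  have d6 := Dom.add (Dom.add d2 (Dom.add d5 (Dom.neg d4))) (h.dom h.Df2 m)
  obtain ⟨B, h1, h2⟩ := d6
  refine ⟨B, fun k s hs => ?_, h2⟩
  have := h1 k s hs
  have e : yd y z f2 k s = (-2 : ℝ) * ((1 / s) * y k s) +
      (z k s + -((1 / s ^ 2) * ((k : ℝ) * ((k : ℝ) + 1) * z k s))) + f2 k s := by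
    unfold yd
    ring
  rw [e]
  exact this

theorem Ext.cyd (h : Ext a R0 ρ ν qq v0 p q q3 ch ch1 y z f1 f2) (k : ℕ) :
    ContinuousOn (yd y z f2 k) (Ioo a ρ) := by
  have hpos : ∀ s ∈ Ioo a ρ, s ≠ 0 := fun s hs => (h.a_pos.trans hs.1).ne'
  have c1 := (h.cy k).mono h.sub
  have c2 := (h.cz k).mono h.sub
  unfold yd
  refine ((ContinuousOn.div (continuousOn_const.mul c1) continuousOn_id hpos).add
    ((continuousOn_const.sub (ContinuousOn.div continuousOn_const (continuousOn_id.pow 2)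
      fun s hs => pow_ne_zero 2 (hpos s hs))).mul c2)).add (h.cf2 k)

theorem mem_strip {s x : ℝ} : (s, x) ∈ Strip (xiq qq) a ρ ↔ s ∈ Ioo a ρ ∧ x ∈ J qq := Iff.rfl

theorem strip_eq : Strip (xiq qq) a ρ = Ioo a ρ ×ˢ J qq := rfl

theorem stripC_eq : StripC (xiq qq) a ρ = Ioc a ρ ×ˢ J qq := rfl

/-- the function `y` -/
noncomputable def Yf (y : ℕ → ℝ → ℝ) (d : ℕ) (t : ℝ × ℝ) : ℝ := LS d y t.1 t.2

theorem Ext.pairFull (h : Ext a R0 ρ ν qq v0 p q q3 ch ch1 y z f1 f2) :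
    PairFull (xiq qq) a R0 ρ v0 p q q3 ch ch1 (Yf y 0) (Yf (yd y z f2) 0) (Yf y 1) (Yf z 0) (Yf z 1)
      (Yf z 2) := by
  have q1 := h.q_le
  have dyI : ∀ m, Dom y (Ioo a ρ) qq m := fun m => (h.dom h.Dy m).mono h.sub
  have dzI : ∀ m, Dom z (Ioo a ρ) qq m := fun m => (h.dom h.Dz m).mono h.sub
  -- derivative of `y`
  have hdy : ∀ t ∈ Strip (xiq qq) a ρ,
      HasFDerivAt (Yf y 0) (hd (Yf (yd y z f2) 0 t) (Yf y 1 t)) t := by
    intro t ht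
    exact LS_hasFDerivAt (d := 0) h.hy (dyI _) (h.Dy' _) (by norm_num) q1 ht.1 ht.2
  -- derivative of `z`
  have hdz0 : ∀ t ∈ Strip (xiq qq) a ρ,
      HasFDerivAt (Yf z 0) (hd (LS 0 (fun k s => -y k s - f1 k s) t.1 t.2) (Yf z 1 t)) t := by
    intro t ht
    exact LS_hasFDerivAt (d := 0) (g' := fun k s => -y k s - f1 k s) h.hz (dzI _) (h.Dz' _)
      (by norm_num) q1 ht.1 ht.2
  have hdz1 : ∀ t ∈ Strip (xiq qq) a ρ,
      HasFDerivAt (Yf z 1) (hd (LS 1 (fun k s => -y k s - f1 k s) t.1 t.2) (Yf z 2 t)) t := by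
    intro t ht
    exact LS_hasFDerivAt (d := 1) (g' := fun k s => -y k s - f1 k s) h.hz (dzI _) (h.Dz' _)
      (by norm_num) q1 ht.1 ht.2
  have split : ∀ d, d ≤ 2 → ∀ t ∈ Strip (xiq qq) a ρ,
      LS d (fun k s => -y k s - f1 k s) t.1 t.2 = -LS d y t.1 t.2 - LS d f1 t.1 t.2 := by
    intro d hd t ht
    have s1 := LS_summable (dyI (2 * d)) hd q1 ht.1 ht.2
    have s2 := LS_summable (h.dom h.Df1 (2 * d)) hd q1 ht.1 ht.2
    unfold LS
    rw [← tsum_neg, ← s1.neg.tsum_sub s2]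
    exact tsum_congr fun k => by ring
  -- the derivative in `x` of `f1`
  have hf1x : ∀ t ∈ Strip (xiq qq) a ρ, LS 1 f1 t.1 t.2 =
      (ch1 t.1 + ch t.1 ^ 2 * q3 t.1) * LS 0 y t.1 t.2 * LS 1 y t.1 t.2 := by
    intro t ht
    have hx : ∀ (g : ℕ → ℝ → ℝ), Dom g (Ioo a ρ) qq 2 →
        HasDerivAt (fun x => LS 0 g t.1 x) (LS 1 g t.1 t.2) t.2 := by
      intro g hg
      obtain ⟨B, hB1, hB2⟩ := hg
      have hB2' : Summable fun k : ℕ => ((k : ℝ) + 1) ^ (2 * 1) * (qq ^ k * B k) := hB2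
      have key := hasDerivAt_tsum_of_isPreconnected (𝕜 := ℝ) (t := J qq)
        (g := fun (k : ℕ) (x : ℝ) => g k t.1 * Pd 0 k x)
        (g' := fun (k : ℕ) (x : ℝ) => g k t.1 * Pd 1 k x)
        (u := fun k : ℕ => ((k : ℝ) + 1) ^ (2 * 1) * (qq ^ k * B k)) hB2'
        (isOpen_J qq) isPreconnected_Ioo
        (fun k x _ => (hasDerivAt_Pd 0 k x).const_mul _) (fun k x hx => ?_) (y₀ := t.2) (y := t.2)
        ht.2 ?_ ht.2
      · exact key
      · rw [Real.norm_eq_abs, abs_mul]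
        calc |g k t.1| * |Pd 1 k x| ≤ B k * (((k : ℝ) + 1) ^ (2 * 1) * qq ^ k) :=
              mul_le_mul (hB1 k _ ht.1) (abs_Pd_le (by norm_num) k q1 hx) (abs_nonneg _)
                ((abs_nonneg _).trans (hB1 k _ ht.1))
          _ = _ := by ring
      · have hD : Dom g (Ioo a ρ) qq 2 := ⟨B, hB1, hB2⟩
        exact LS_summable (d := 0) (hD.of_le (by norm_num) h.q_pos.le) (by norm_num) q1 ht.1 ht.2
    have g1 := hx f1 (h.dom h.Df1 2)
    have g2 := hx y (dyI 2)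
    have g3 : HasDerivAt (fun x => (ch1 t.1 + ch t.1 ^ 2 * q3 t.1) / 2 * LS 0 y t.1 x ^ 2)
        ((ch1 t.1 + ch t.1 ^ 2 * q3 t.1) / 2 * (2 * LS 0 y t.1 t.2 * LS 1 y t.1 t.2)) t.2 := by
      refine ((g2.pow 2).const_mul _).congr_deriv ?_
      ring
    have g4 : HasDerivAt (fun x => LS 0 f1 t.1 x)
        ((ch1 t.1 + ch t.1 ^ 2 * q3 t.1) / 2 * (2 * LS 0 y t.1 t.2 * LS 1 y t.1 t.2)) t.2 := by
      refine g3.congr_of_eventuallyEq ?_
      filter_upwards [(isOpen_J qq).mem_nhds ht.2] with x hx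
      exact h.e1 t.1 ht.1 x hx
    rw [g1.unique g4]
    ring
  refine ⟨one_lt_half h.one_lt, ⟨hdy, ?_, ?_, ?_⟩, ?_, ?_, ?_, ?_, ?_, ?_, ?_, ?_, ?_, ?_⟩
  · intro t ht
    refine hd_congr (hdz0 t ht) ?_ rfl
    rw [split 0 (by norm_num) t ht, h.e1 t.1 ht.1 t.2 ht.2]
    simp only [Yf]
  · intro t ht
    refine hd_congr (hdz1 t ht) ?_ rfl
    rw [split 1 (by norm_num) t ht, hf1x t ht]
    simp only [Yf]
    ring
  · intro t ht
    have e2 := h.e2 t.1 ht.1 t.2 ht.2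
    have hode := LS_ode (dzI 4) q1 ht.1 ht.2
    have s1 := LS_summable (d := 0) (dyI _) (by norm_num) q1 ht.1 ht.2
    have s2 := LS_summable (d := 0) (dzI _) (by norm_num) q1 ht.1 ht.2
    have s3 := LS_summable (d := 0) (Dom.lam (m := 2 * 0) (dzI _)) (by norm_num) q1 ht.1 ht.2
    have s4 := LS_summable (d := 0) (h.dom h.Df2 _) (by norm_num) q1 ht.1 ht.2
    simp only [Yf]
    rw [← e2, hode]
    have e3 : LS 0 (yd y z f2) t.1 t.2 = (-2 / t.1) * LS 0 y t.1 t.2 + LS 0 z t.1 t.2 +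
        (-1 / t.1 ^ 2) * LS 0 (fun (k : ℕ) s => (k : ℝ) * ((k : ℝ) + 1) * z k s) t.1 t.2 +
        LS 0 f2 t.1 t.2 := by
      unfold LS
      rw [← s1.tsum_mul_left, ← s3.tsum_mul_left, ← (s1.mul_left _).tsum_add s2,
        ← ((s1.mul_left _).add s2).tsum_add (s3.mul_left _),
        ← (((s1.mul_left _).add s2).add (s3.mul_left _)).tsum_add s4]
      refine tsum_congr fun k => ?_
      unfold yd
      ring
    rw [e3]
    ring
  · exact LS_continuousOn (d := 0) h.cyd (h.Dy' _) (by norm_num) q1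
  · exact LS_continuousOn (d := 1) (fun k => (h.cy k).mono h.sub) (dyI _) (by norm_num) q1
  · exact LS_continuousOn (d := 2) (fun k => (h.cz k).mono h.sub) (dzI _) (by norm_num) q1
  · exact LS_continuousOn (d := 0) h.cy (h.dom h.Dy _) (by norm_num) q1
  · exact LS_continuousOn (d := 0) h.cz (h.dom h.Dz _) (by norm_num) q1
  · exact LS_continuousOn (d := 1) h.cz (h.dom h.Dz _) (by norm_num) q1
  · intro x _
    simp only [Yf, LS, h.zρ, zero_mul, tsum_zero]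
  · intro x _
    simp only [Yf, LS, h.zρ, zero_mul, tsum_zero]
  · intro t ht
    exact h.rs_pos t.1 ht.1 t.2 ht.2
  · intro t ht
    exact h.r_pos t.1 ht.1 t.2 ht.2

/-- the boundary series is of class `C²` -/
theorem Ext.contDiff (h : Ext a R0 ρ ν qq v0 p q q3 ch ch1 y z f1 f2) :
    ContDiffOn ℝ 2 (fun x => LS 0 y ρ x) (J qq) := by
  have q1 := h.q_le
  have hρ : ρ ∈ Ioc a ρ := ⟨h.aρ, le_rfl⟩
  have key : ∀ d, d + 1 ≤ 2 → ∀ x ∈ J qq,
      HasDerivAt (fun x => LS d y ρ x) (LS (d + 1) y ρ x) x := by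
    intro d hd x hx
    obtain ⟨B, hB1, hB2⟩ := h.dom h.Dy (2 * (d + 1))
    refine hasDerivAt_tsum_of_isPreconnected (𝕜 := ℝ) (t := J qq)
      (g := fun (k : ℕ) (x : ℝ) => y k ρ * Pd d k x)
      (g' := fun (k : ℕ) (x : ℝ) => y k ρ * Pd (d + 1) k x)
      (u := fun k : ℕ => ((k : ℝ) + 1) ^ (2 * (d + 1)) * (qq ^ k * B k)) hB2
      (isOpen_J qq) isPreconnected_Ioo
      (fun k x _ => (hasDerivAt_Pd d k x).const_mul _) (fun k x hx => ?_) (y₀ := x) (y := x)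
      hx ?_ hx
    · rw [Real.norm_eq_abs, abs_mul]
      calc |y k ρ| * |Pd (d + 1) k x| ≤ B k * (((k : ℝ) + 1) ^ (2 * (d + 1)) * qq ^ k) :=
            mul_le_mul (hB1 k _ hρ) (abs_Pd_le hd k q1 hx) (abs_nonneg _)
              ((abs_nonneg _).trans (hB1 k _ hρ))
        _ = _ := by ring
    · exact LS_summable (h.dom h.Dy (2 * d)) (by omega) q1 hρ hx
  have c2 : ContinuousOn (fun x => LS 2 y ρ x) (J qq) := by
    have e := LS_continuousOn (d := 2) h.cy (h.dom h.Dy _) (by norm_num) q1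
    exact e.comp (f := fun x => ((ρ, x) : ℝ × ℝ)) (by fun_prop) fun x hx => ⟨hρ, hx⟩
  have d1 : ContDiffOn ℝ 1 (fun x => LS 1 y ρ x) (J qq) := by
    rw [show (1 : WithTop ℕ∞) = 0 + 1 by norm_num, contDiffOn_succ_iff_deriv_of_isOpen (isOpen_J qq)]
    refine ⟨fun x hx => (key 1 (by norm_num) x hx).differentiableAt.differentiableWithinAt, by simp, ?_⟩
    rw [contDiffOn_zero]
    exact c2.congr fun x hx => (key 1 (by norm_num) x hx).deriv
  rw [show (2 : WithTop ℕ∞) = 1 + 1 by norm_num, contDiffOn_succ_iff_deriv_of_isOpen (isOpen_J qq)]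
  refine ⟨fun x hx => (key 0 (by norm_num) x hx).differentiableAt.differentiableWithinAt, by simp, ?_⟩
  exact d1.congr fun x hx => (key 0 (by norm_num) x hx).deriv

/-- if one coefficient of degree at least one is not zero, the boundary series is not constant -/
theorem Ext.nonconst (h : Ext a R0 ρ ν qq v0 p q q3 ch ch1 y z f1 f2) {l : ℕ} (hl : l ≠ 0)
    (hyl : y l ρ ≠ 0) : ∃ x ∈ Icc (-1 : ℝ) 1, LS 0 y ρ x ≠ LS 0 y ρ 1 := by
  by_contra hcon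
  push Not at hcon
  have hρ : ρ ∈ Ioc a ρ := ⟨h.aρ, le_rfl⟩
  have hsum : Summable fun k => |y k ρ| := by
    obtain ⟨B, hB1, hB2⟩ := h.dom h.Dy 0
    refine Summable.of_nonneg_of_le (fun k => abs_nonneg _) (fun k => ?_) hB2
    have h1 := hB1 k ρ hρ
    have h2 : 1 ≤ qq ^ k := one_le_pow₀ h.q_le
    have h3 : 0 ≤ B k := (abs_nonneg _).trans h1
    rw [pow_zero, one_mul]
    nlinarith
  have e1 := H56.SF.integral_tsum_P hsum l
  have e2 : ∫ x in (-1 : ℝ)..1, (∑' m, y m ρ * (Pool.Agent.H27.Leg.P m).eval x) *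
      (Pool.Agent.H27.Leg.P l).eval x = ∫ x in (-1 : ℝ)..1, LS 0 y ρ 1 * (Pool.Agent.H27.Leg.P l).eval x := by
    refine intervalIntegral.integral_congr fun x hx => ?_
    rw [uIcc_of_le (by norm_num)] at hx
    have := hcon x hx
    show LS 0 y ρ x * _ = _
    rw [this]
  rw [e2, intervalIntegral.integral_const_mul, H56.SF.integral_P l hl, mul_zero] at e1
  have h4 : (0 : ℝ) < 2 / (2 * (l : ℝ) + 1) := by positivity
  exact (mul_ne_zero hyl h4.ne') e1.symm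

/-- the radial function of the domain -/
theorem Ext.radFun (h : Ext a R0 ρ ν qq v0 p q q3 ch ch1 y z f1 f2) (hch : ch ρ = 1) {r1 : ℝ}
    (hr1 : 0 < r1) (hodd : ∀ k, Odd k → ∀ s, y k s = 0) {l : ℕ} (hl : l ≠ 0) (hyl : y l ρ ≠ 0)
    (hlt : ∀ x ∈ Icc (-1 : ℝ) 1, r1 < ρ + LS 0 y ρ x) :
    RadFun (fun x => cX ch (Yf y 0) (ρ, x)) r1 (xiq qq) := by
  have e : (fun x => cX ch (Yf y 0) (ρ, x)) = fun x => ρ + LS 0 y ρ x := by
    funext x
    simp only [cX, Yf, hch, one_mul]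
  rw [e]
  refine ⟨hr1, one_lt_half h.one_lt, contDiffOn_const.add h.contDiff, hlt, ?_, ?_⟩
  · intro x _
    show ρ + LS 0 y ρ (-x) = ρ + LS 0 y ρ x
    rw [LS_even hodd]
  · obtain ⟨x, hx, hne⟩ := h.nonconst hl hyl
    exact ⟨x, hx, fun hh => hne (by simpa using hh)⟩

end

end Pool.Agent.H97.SF
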