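import Pool.Agent.H97.SF.EvC

/-!
# MP_f4af34, block DICTIONARY (EV): the fields `val`, `gam`, `r0` of helper50's `Spec`
-/

set_option autoImplicit false
open Polynomial

namespace Pool.Agent.H97.SF

open Pool.Agent.H27.Leg

section

variable {A A' : Type} [NormedCommRing A] [NormedAlgebra ℝ A] [CompleteSpace A] [NormedCommRing A'] [NormedAlgebra ℝ A']
  [CompleteSpace A'] {w : ℕ → ℝ} [hw : Fact (Wt w)]

/-- a continuous linear map on the scaled coefficients -/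
noncomputable def mapL (w : ℕ → ℝ) [hw : Fact (Wt w)] (η : A →L[ℝ] A') : W A w →L[ℝ] W A' w :=
  diag w w (fun _ => η) (C := ‖η‖) (fun _ => le_of_eq (mul_comm _ _)) hw.out.pos hw.out.pos

theorem co_mapL (η : A →L[ℝ] A') (f : W A w) (n : ℕ) : co (mapL w η f) n = η (co f n) :=
  co_diag _ _ _ f n

theorem sc_mapL (η : A →L[ℝ] A') (f : W A w) (n : ℕ) : sc (mapL w η f) n = η (sc f n) := by
  have hne : ∀ n, w n ≠ 0 := fun n => (hw.out.pos n).ne'
  rw [sc_eq_co hne, sc_eq_co hne, co_mapL, map_smul]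

theorem mapL_mono (η : A →L[ℝ] A') (n : ℕ) (y : A) : mapL w η (mono n y) = mono n (η y) := by
  refine W.ext fun m => ?_
  rw [sc_mapL, sc_mono, sc_mono]
  split_ifs
  · rfl
  · exact map_zero _

theorem mapL_Mk (η : A →L[ℝ] A') (κ : ℕ → ℕ → ℕ → ℝ) (a b : ℕ) (y : A) :
    mapL w η (Mk κ a b y) = Mk κ a b (η y) := by
  unfold Mk
  rw [map_sum]
  refine Finset.sum_congr rfl fun L _ => ?_
  rw [mapL_mono, map_smul]

theorem mapL_mul (η : A →ₐ[ℝ] A') (ηL : A →L[ℝ] A') (h : ∀ a, ηL a = η a) (f g : W A w) :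
    mapL w ηL (f * g) = mapL w ηL f * mapL w ηL g := by
  have key : (ContinuousLinearMap.compL ℝ (W A w) (W A w) (W A' w) (mapL w ηL)).comp (mulW w) =
      ((ContinuousLinearMap.compL ℝ (W A w) (W A' w) (W A' w)).flip (mapL w ηL)).comp
        ((mulW w : W A' w →L[ℝ] W A' w →L[ℝ] W A' w).comp (mapL w ηL)) := by
    refine bil_ext fun a y b z => ?_
    have e1 : (ContinuousLinearMap.compL ℝ (W A w) (W A w) (W A' w) (mapL w ηL)).comp (mulW w) (mono a y) (mono b z) =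
        mapL w ηL (mulW w (mono a y) (mono b z)) := rfl
    have e2 : (((ContinuousLinearMap.compL ℝ (W A w) (W A' w) (W A' w)).flip (mapL w ηL)).comp
        ((mulW w : W A' w →L[ℝ] W A' w →L[ℝ] W A' w).comp (mapL w ηL))) (mono a y) (mono b z) =
        mulW w (mapL w ηL (mono a y)) (mapL w ηL (mono b z)) := rfl
    rw [e1, e2, mulW_mono, mapL_Mk, mapL_mono, mapL_mono, mulW_mono, h, h, h, map_mul]
  exact congrArg (fun T : W A w →L[ℝ] W A w →L[ℝ] W A' w => T f g) key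

/-- a homomorphism of the coefficient algebras gives a homomorphism of the Legendre algebras -/
noncomputable def mapA (w : ℕ → ℝ) [hw : Fact (Wt w)] (η : A →ₐ[ℝ] A') (ηL : A →L[ℝ] A') (h : ∀ a, ηL a = η a) :
    W A w →ₐ[ℝ] W A' w where
  toFun f := mapL w ηL f
  map_one' := by
    rw [one_def, mapL_mono, h, map_one]
    rfl
  map_mul' f g := mapL_mul η ηL h f g
  map_zero' := map_zero _
  map_add' f g := map_add _ f g
  commutes' t := by
    rw [Algebra.algebraMap_eq_smul_one, Algebra.algebraMap_eq_smul_one, map_smul, one_def, mapL_mono, h, map_one]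
    rfl

theorem co_mapA (η : A →ₐ[ℝ] A') (ηL : A →L[ℝ] A') (h : ∀ a, ηL a = η a) (f : W A w) (n : ℕ) :
    co (mapA w η ηL h f) n = η (co f n) := by
  rw [← h]
  exact co_mapL ηL f n

end

section

variable {w0 w1 : ℕ → ℝ} [hw : Fact (Wt w0)]

/-- field `val` of helper50's `Spec` -/
theorem spec_val (h : PB w0) (s : Set.Icc SF.R0 SF.rho) (x : ℝ) (hx : x ∈ SF.X0) :
    ∃ φ : W CL w0 →ₐ[ℝ] ℝ, ∀ f, φ f = SF.ev (fun k => co f k s) x :=
  ⟨val h s hx, fun f => (ev_co h s hx f).symm⟩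

/-- field `gam` of helper50's `Spec` -/
theorem spec_gam {B : ℝ} (h : PB w0) (h1 : PB w1) (p1 : ∀ n, 0 < w1 n) (hk : KB (scl ct w1 w1 w0) B) (σ : CL)
    (s : Set.Icc SF.R0 SF.rho) (hσ : σ s = 1 / (s : ℝ) ^ 2) (x : ℝ) (hx : x ∈ SF.X0) (f : W CL w1) :
    SF.ev (fun k => co (iota CL w0 σ * gam w1 w1 w0 hk f f) k s) x =
      (1 - x ^ 2) * SF.ev1 (fun k => co f k s) x ^ 2 / (s : ℝ) ^ 2 := by
  rw [ev_co h s hx, map_mul, val_iota, val_gam h h1 h1 p1 p1 hk, hσ]
  ring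

/-- field `v_*` of helper50's `Spec`: values of constant series -/
theorem spec_iota (h : PB w0) (s : Set.Icc SF.R0 SF.rho) (x : ℝ) (hx : x ∈ SF.X0) (σ : CL) :
    SF.ev (fun k => co (iota CL w0 σ) k s) x = σ s := by
  rw [ev_co h s hx, val_iota]

/-- field `r0` of helper50's `Spec`, at any point of the layer -/
theorem spec_r0 (s : Set.Icc SF.R0 SF.rho) :
    ∃ ψ : W CL w0 →ₐ[ℝ] W ℝ w0, ∀ f k, co (ψ f) k = co f k s :=
  ⟨mapA w0 (ContinuousMap.evalAlgHom ℝ ℝ s) (ContinuousMap.evalCLM ℝ s) (fun _ => rfl),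
    fun f k => co_mapA _ _ _ f k⟩

/-- the weights `nu1 ^ k` -/
theorem PB_pow {q : ℝ} (hq : SF.nu ≤ q) : PB fun n => q ^ n := fun n =>
  pow_le_pow_left₀ (by have := one_le_nu; linarith) hq n

end

end Pool.Agent.H97.SF
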