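import Pool.Agent.H94.SF.N2a

/-!
# MP_f4af34, block DICTIONARY (EV3): values of the nonlinearity of algebra elements

`phi` is an evaluation homomorphism (of the Legendre algebra at `(s, x)`), `psi` an evaluation at `s = R0`.
-/

set_option autoImplicit false

namespace Pool.Agent.H97.SF

open Pool.Agent.H50.SF (N2a)

section

variable {R S : Type*} [NormedCommRing R] [NormedAlgebra ℝ R] [NormedCommRing S] [NormedAlgebra ℝ S]

/-- homomorphisms commute with the nonlinearity -/
theorem N2a_map (φ : R →ₐ[ℝ] S) (q3 p kap c si y ys z lz G e d ep ay : R) :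
    φ (N2a q3 p kap c si y ys z lz G e d ep ay) =
      N2a (φ q3) (φ p) (φ kap) (φ c) (φ si) (φ y) (φ ys) (φ z) (φ lz) (φ G) (φ e) (φ d) (φ ep) (φ ay) := by
  simp only [N2a, map_add, map_sub, map_mul, map_smul, map_one]

/-- where the cut-off and its derivative vanish, the nonlinearity vanishes -/
theorem N2a_zero (φ : R →ₐ[ℝ] S) (q3 p kap c c1 si y ys z lz G a : R) (h : φ c = 0) (h1 : φ c1 = 0) :
    φ (N2a q3 p kap c si y ys z lz G (c * y) (c1 * y + c * ys) (si * (c * y)) (a * y)) = 0 := by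
  simp only [N2a, map_add, map_sub, map_mul, map_smul, map_one, h, h1, zero_mul, mul_zero, add_zero, sub_zero, smul_zero]

/-- the value of the nonlinearity at a point of the layer -/
theorem N2a_value (φ : R →ₐ[ℝ] ℝ) {s : ℝ} (hs : s ≠ 0) (q3 p kap c c1 si y ys z lz G a : R)
    (h1 : φ q3 = SF.v3 s) (h2 : φ p = SF.v1 s) (h3 : φ kap = SF.kap s) (h4 : φ c = SF.chi s)
    (h5 : φ c1 = SF.chi1 s) (h6 : φ si = 1 / s) (h7 : φ a = SF.aa s) :
    φ (N2a q3 p kap c si y ys z lz G (c * y) (c1 * y + c * ys) (si * (c * y)) (a * y)) =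
      SF.N2 s (φ y) (φ ys) (φ z) (s ^ 2 * φ lz) (s ^ 2 * φ G) := by
  rw [SF.N2_eq_N2a, N2a_map]
  simp only [map_add, map_mul, h1, h2, h3, h4, h5, h6, h7]
  have e1 : s ^ 2 * φ lz / s ^ 2 = φ lz := by field_simp
  have e2 : s ^ 2 * φ G / s ^ 2 = φ G := by field_simp
  have e3 : 1 / s * (SF.chi s * φ y) = SF.chi s * φ y / s := by ring
  rw [e1, e2, e3]

end

end Pool.Agent.H97.SF
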