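import Pool.Agent.H27.Leg.Gam
import Pool.Agent.H97.SF.EvL

/-!
# MP_f4af34, block DICTIONARY (EV1, EV2): values of the elements of the Legendre algebra

`val s x` : the value at a point `s` of the layer and `x ∈ X0`, an algebra homomorphism
`W C(I0, ℝ) w → ℝ`; it is `SF.ev` of the coefficient functions at `s`.
-/

set_option autoImplicit false
open Polynomial

namespace Pool.Agent.H97.SF

open Pool.Agent.H27.Leg
open Pool.Agent.H50.SF (N2a)

/-- continuous functions on the layer -/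
abbrev CL : Type := C(Set.Icc SF.R0 SF.rho, ℝ)

theorem one_le_nu : (1 : ℝ) ≤ SF.nu := by
  unfold SF.nu
  norm_num

/-- the set `X0` is inside the region where `|P n| ≤ nu ^ n` -/
theorem two_abs_le {x : ℝ} (hx : x ∈ SF.X0) : 2 * |x| ≤ SF.nu + 1 / SF.nu := by
  have h1 : |x| < SF.xi := abs_lt.2 hx
  have h2 : SF.xi = 1 + 1 / 10 ^ 12 := rfl
  have h3 : SF.nu = 1 + 1 / 10 ^ 4 := rfl
  rw [h2] at h1
  rw [h3]
  have h4 : (2 : ℝ) * (1 + 1 / 10 ^ 12) ≤ 1 + 1 / 10 ^ 4 + 1 / (1 + 1 / 10 ^ 4) := by norm_num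
  linarith

/-- the set `X0` is inside the region where `|P n'| ≤ C nu ^ n` -/
theorem exists_der {x : ℝ} (hx : x ∈ SF.X0) : ∃ C : ℝ, 0 ≤ C ∧ ∀ n, |(derivative (P n)).eval x| ≤ C * SF.nu ^ n := by
  have h1 : |x| < SF.xi := abs_lt.2 hx
  have h2 : SF.xi = 1 + 1 / 10 ^ 12 := rfl
  rw [h2] at h1
  refine exists_der_bound (q := 1 + 1 / 10 ^ 5) (by norm_num) ?_ ?_
  · have h3 : SF.nu = 1 + 1 / 10 ^ 4 := rfl
    rw [h3]
    norm_num
  · have h4 : (2 : ℝ) * (1 + 1 / 10 ^ 12) ≤ 1 + 1 / 10 ^ 5 + 1 / (1 + 1 / 10 ^ 5) := by norm_num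
    linarith

theorem abs_P_le_nu {x : ℝ} (hx : x ∈ SF.X0) (n : ℕ) : |(P n).eval x| ≤ SF.nu ^ n :=
  abs_le_pow n one_le_nu (two_abs_le hx)

section

/-- the bound of the values of the Legendre polynomials by the weight -/
def PB (w : ℕ → ℝ) : Prop := ∀ n, SF.nu ^ n ≤ w n

variable {w : ℕ → ℝ}

theorem PB.le (h : PB w) {x : ℝ} (hx : x ∈ SF.X0) (n : ℕ) : |(P n).eval x| ≤ 1 * w n := by
  rw [one_mul]
  exact (abs_P_le_nu hx n).trans (h n)

variable [hw : Fact (Wt w)]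

/-- the value at a point, as an algebra homomorphism -/
noncomputable def val (h : PB w) (s : Set.Icc SF.R0 SF.rho) {x : ℝ} (hx : x ∈ SF.X0) : W CL w →ₐ[ℝ] ℝ :=
  (ContinuousMap.evalAlgHom ℝ ℝ s).comp
    (evA (fun n => (P n).eval x) (h.le hx) (by simp only [P_zero, eval_one]) (sum_c_eval x))

theorem val_apply (h : PB w) (s : Set.Icc SF.R0 SF.rho) {x : ℝ} (hx : x ∈ SF.X0) (f : W CL w) :
    val h s hx f = evL (fun n => (P n).eval x) (h.le hx) hw.out.pos f s := rfl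

theorem hasSum_val (h : PB w) (s : Set.Icc SF.R0 SF.rho) {x : ℝ} (hx : x ∈ SF.X0) (f : W CL w) :
    HasSum (fun n => co f n s * (P n).eval x) (val h s hx f) := by
  rw [val_apply]
  exact evL_point (h.le hx) hw.out.pos f s

/-- the value is helper94's `ev` of the coefficients -/
theorem ev_co (h : PB w) (s : Set.Icc SF.R0 SF.rho) {x : ℝ} (hx : x ∈ SF.X0) (f : W CL w) :
    SF.ev (fun k => co f k s) x = val h s hx f := (hasSum_val h s hx f).tsum_eq

theorem abs_val_le (h : PB w) (s : Set.Icc SF.R0 SF.rho) {x : ℝ} (hx : x ∈ SF.X0) (f : W CL w) :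
    |val h s hx f| ≤ ‖f‖ := by
  rw [val_apply, ← one_mul ‖f‖]
  exact abs_evL_point_le (h.le hx) hw.out.pos f s

theorem val_iota (h : PB w) (s : Set.Icc SF.R0 SF.rho) {x : ℝ} (hx : x ∈ SF.X0) (a : CL) :
    val h s hx (iota CL w a) = a s := by
  rw [val_apply, evL_iota (h.le hx) (by simp only [P_zero, eval_one])]

/-- the value of the element with coefficients `c k * co f k` -/
theorem ev_mul_co (h : PB w) (s : Set.Icc SF.R0 SF.rho) {x : ℝ} (hx : x ∈ SF.X0) {g f : W CL w} {t : ℝ}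
    {c : ℕ → ℝ} (hg : ∀ k, t * co g k s = c k * co f k s) :
    SF.ev (fun k => c k * co f k s) x = t * val h s hx g := by
  rw [← (hasSum_val h s hx g).tsum_eq, ← tsum_mul_left]
  unfold SF.ev
  refine tsum_congr fun k => ?_
  show c k * co f k s * (P k).eval x = t * (co g k s * (P k).eval x)
  rw [← hg k, mul_assoc]

/-- the value of a gradient product -/
theorem val_gam {w₁ w₂ : ℕ → ℝ} {B : ℝ} (h : PB w) (h1 : PB w₁) (h2 : PB w₂) (p1 : ∀ n, 0 < w₁ n) (p2 : ∀ n, 0 < w₂ n)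
    (hk : KB (scl ct w₁ w₂ w) B) (s : Set.Icc SF.R0 SF.rho) {x : ℝ} (hx : x ∈ SF.X0) (f : W CL w₁) (g : W CL w₂) :
    val h s hx (gam w₁ w₂ w hk f g) =
      (1 - x ^ 2) * (SF.ev1 (fun k => co f k s) x * SF.ev1 (fun k => co g k s) x) := by
  obtain ⟨C, hC0, hC⟩ := exists_der hx
  have e1 : ∀ n, |(derivative (P n)).eval x| ≤ C * w₁ n := fun n =>
    (hC n).trans (mul_le_mul_of_nonneg_left (h1 n) hC0)
  have e2 : ∀ n, |(derivative (P n)).eval x| ≤ C * w₂ n := fun n =>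
    (hC n).trans (mul_le_mul_of_nonneg_left (h2 n) hC0)
  rw [val_apply, evL_gam hk p1 p2 hw.out.pos x e1 e2 (h.le hx) f g]
  have a1 : evL (fun n => (derivative (P n)).eval x) e1 p1 f s = SF.ev1 (fun k => co f k s) x :=
    evL_point_eq e1 p1 f s
  have a2 : evL (fun n => (derivative (P n)).eval x) e2 p2 g s = SF.ev1 (fun k => co g k s) x :=
    evL_point_eq e2 p2 g s
  rw [← a1, ← a2]
  rfl

end

end Pool.Agent.H97.SF
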