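import Mathlib

set_option autoImplicit false

/-!
Algebraic core of the contact transform for MP_f4af34 (S06716).

At a contact point `s`, `r = s + χ y`, with `v0, v1, v2, v3, v4` = `v0` and its derivatives at `s`,
`χ, χ1, χ2` = `χ` and its derivatives, `κ = χ1 + χ^2 v3`, `κ' = χ2 + 2 χ χ1 v3 + χ^2 v4`,
`zs = -y - κ/2 y^2`, `M = 1 - χ zss + (κ + χ1) y + (χ1 κ - χ κ'/2) y^2`, `L = Δ_S z`, `G = |∇_S z_s|^2`:
`r^2 M (v_rr + 2 v_r / r + Δ_S v / r^2 + v - 1) = s^2 (z_ss + 2 z_s / s + L / s^2 + z) + HO`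
with the polynomial `HO` below (quadratic and higher in `y, z, zss, L, G`).
-/

namespace Pool.Agent.H97.SF

/-- `K` -/
noncomputable def KK (s r ch v1 v2 z y c2 L : ℝ) : ℝ :=
  r ^ 2 * (z + ch * v1 * y - c2 * y ^ 2) - 2 * r * ch * (v1 / s) * y
    - 2 * r * (1 - ch * v2) * y + L

/-- the higher order polynomial -/
noncomputable def HO (s v1 v2 v3 v4 ch ch1 ch2 y z zss L G : ℝ) : ℝ :=
  let kap := ch1 + ch ^ 2 * v3
  let kap' := ch2 + 2 * ch * ch1 * v3 + ch ^ 2 * v4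
  let c1 := kap * ch * v3 + kap' / 2
  let c2 := ch * (1 - ch * v2) / 2
  let r := s + ch * y
  let M1 := -ch * zss + (kap + ch1) * y + (ch1 * kap - ch * kap' / 2) * y ^ 2
  s * kap * y ^ 2 + (r ^ 2 - s ^ 2) * (zss + ch * v3 * y + c1 * y ^ 2) + s ^ 2 * c1 * y ^ 2
    + M1 * KK s r ch v1 v2 z y c2 L
    + ((r ^ 2 - s ^ 2) * (z + ch * v1 * y) - r ^ 2 * c2 * y ^ 2 - 2 * ch ^ 2 * (v1 / s) * y ^ 2
        - 2 * ch * (1 - ch * v2) * y ^ 2)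
    + ch * G

theorem contact_identity (s v0 v1 v2 v3 v4 ch ch1 ch2 y z zss zs L G M r v vr vrr DS : ℝ)
    (hs : s ≠ 0) (hr : r = s + ch * y) (hr0 : r ≠ 0)
    (h2 : v2 = 1 - v0 - 2 * v1 / s) (h3 : v3 = -v1 - 2 * v2 / s + 2 * v1 / s ^ 2)
    (hM : M = 1 - ch * zss + ((ch1 + ch ^ 2 * v3) + ch1) * y
      + (ch1 * (ch1 + ch ^ 2 * v3) - ch * (ch2 + 2 * ch * ch1 * v3 + ch ^ 2 * v4) / 2) * y ^ 2)
    (hM0 : M ≠ 0)
    (hzs : zs = -y - (ch1 + ch ^ 2 * v3) / 2 * y ^ 2)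
    (hv : v = v0 + z + ch * v1 * y - 1 / 2 * ch * (1 - ch * v2) * y ^ 2)
    (hvr : vr = v1 - (1 - ch * v2) * y)
    (hvrr : vrr = v2 + (zss + ch * v3 * y + ((ch1 + ch ^ 2 * v3) * ch * v3
      + (ch2 + 2 * ch * ch1 * v3 + ch ^ 2 * v4) / 2) * y ^ 2) / M)
    (hDS : DS = L + ch * G / M) :
    r ^ 2 * M * (vrr + 2 * vr / r + DS / r ^ 2 + v - 1)
      = s ^ 2 * (zss + 2 * zs / s + L / s ^ 2 + z)
        + HO s v1 v2 v3 v4 ch ch1 ch2 y z zss L G := by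
  have e1 : r ^ 2 * M * (vrr + 2 * vr / r + DS / r ^ 2 + v - 1)
      = r ^ 2 * M * v2 + r ^ 2 * (zss + ch * v3 * y + ((ch1 + ch ^ 2 * v3) * ch * v3
      + (ch2 + 2 * ch * ch1 * v3 + ch ^ 2 * v4) / 2) * y ^ 2) + 2 * r * M * vr
      + M * L + ch * G + r ^ 2 * M * (v - 1) := by
    rw [hvrr, hDS]; field_simp; ring
  have e2 : s ^ 2 * (zss + 2 * zs / s + L / s ^ 2 + z) = s ^ 2 * zss + 2 * s * zs + L + s ^ 2 * z := by
    field_simp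
  rw [e1, e2]
  obtain ⟨q, hq⟩ : ∃ q, q = v1 / s := ⟨_, rfl⟩
  have hv1 : v1 = s * q := by rw [hq]; field_simp
  have hv0 : v0 = 1 - v2 - 2 * q := by rw [h2, hq]; ring
  have e3 : s * v3 = -(s ^ 2 * q) - 2 * v2 + 2 * q := by rw [h3, hv1]; field_simp
  simp only [HO, KK]
  have e5 : v1 / s = q := hq.symm
  rw [hzs, hv, hvr, e5, hr, hM]
  clear hzs hv hvr hvrr hDS hM e1 e2 e5 hq h2 h3 hr0
  generalize ch1 + ch ^ 2 * v3 = kap
  generalize ch2 + 2 * ch * ch1 * v3 + ch ^ 2 * v4 = kap'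
  rw [hv0, hv1]
  linear_combination (s * ch * y) * e3
end Pool.Agent.H97.SF
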