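import Mathlib

/-!
# MP_f4af34 (Schiffer in R^3): the two contact identities of the first order pair `(y, z)`

Letters: `c = χ`, `c' = χ'`, `p = v0'`, `v2 = v0''`, `v3 = v0'''`, `ys = y_s`, `yx = y_x`, `zx = z_x`,
`zxx = z_xx`, `x2 = x`.
-/

set_option autoImplicit false

namespace Pool.Agent.H97.SF

/-- `a = 1 - χ v0''` -/
def ca (c v2 : ℝ) : ℝ := 1 - c * v2

/-- `a' = -χ' v0'' - χ v0'''` -/
def cas (c c' v2 v3 : ℝ) : ℝ := -c' * v2 - c * v3

/-- `κ = χ' + χ² v0'''` -/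
def kap (c c' v3 : ℝ) : ℝ := c' + c ^ 2 * v3

/-- `d = χ' y + χ y_s`, so `r_s = 1 + d` -/
def dd (c c' y ys : ℝ) : ℝ := c' * y + c * ys

/-- `A = p - a y`, the radial derivative of the solution -/
def Ar (c p v2 y : ℝ) : ℝ := p - ca c v2 * y

/-- `A_s` -/
def Ars (c c' v2 v3 y ys : ℝ) : ℝ := v2 - cas c c' v2 v3 * y - ca c v2 * ys

/-- the solution `v` as a function of `(s, x)` -/
noncomputable def vv (c v0 p v2 y z : ℝ) : ℝ := v0 + z + p * (c * y) - ca c v2 * y * (c * y) / 2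

/-- the nonlinear term `f2` of the pair (compact form of helper55); `L = (1 - x²) z_xx - 2 x z_x`,
`G = (1 - x²) y_x²` -/
noncomputable def N2 (s c c' p v2 v3 y ys z L G : ℝ) : ℝ :=
  (2 * (c * y / s) + (c * y / s) ^ 2) * (-ys + v3 * (c * y) + z + p * (c * y)) +
  (1 + c * y / s) ^ 2 * (dd c c' y ys * (z + p * (c * y)) -
    (1 + dd c c' y ys) * (ca c v2 * y * (c * y)) / 2) -
  2 / s * (c * y / s + dd c c' y ys + c * y / s * dd c c' y ys) * (ca c v2 * y + p * (c * y / s)) +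
  dd c c' y ys * L / s ^ 2 + c * (1 + kap c c' v3 * y) * G / s ^ 2

/-- The `s`-derivative of `vv` is `A r_s` if and only if `z_s = - y - κ y² / 2`. -/
theorem vs_identity (c c' p v2 v3 y ys zs : ℝ) :
    p + zs + v2 * (c * y) + p * dd c c' y ys -
      (cas c c' v2 v3 * y * (c * y) + ca c v2 * ys * (c * y) + ca c v2 * y * dd c c' y ys) / 2 -
      Ar c p v2 y * (1 + dd c c' y ys) = zs + y + kap c c' v3 / 2 * y ^ 2 := by
  unfold Ar cas ca dd kap
  ring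

/-- The contact identity. -/
theorem T_identity (s c c' v0 p v2 v3 y ys yx z zx zxx x r rs : ℝ) (hs : s ≠ 0)
    (hr : r = s + c * y) (hrs : rs = 1 + dd c c' y ys) (r0 : r ≠ 0) (rs0 : rs ≠ 0)
    (h0 : s ^ 2 * v2 + 2 * s * p + s ^ 2 * (v0 - 1) = 0)
    (h1 : s ^ 2 * v3 + 2 * s * v2 - 2 * p + s ^ 2 * p = 0) :
    r ^ 2 * rs * (Ars c c' v2 v3 y ys / rs + 2 / r * Ar c p v2 y +
      ((1 - x ^ 2) * (zxx - (-(1 + kap c c' v3 * y) * yx) * (c * yx) / rs) - 2 * x * zx) / r ^ 2 +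
      (vv c v0 p v2 y z - 1)) =
    s ^ 2 * (-ys - 2 * y / s + z + ((1 - x ^ 2) * zxx - 2 * x * zx) / s ^ 2 +
      N2 s c c' p v2 v3 y ys z ((1 - x ^ 2) * zxx - 2 * x * zx) ((1 - x ^ 2) * yx ^ 2)) := by
  have e1 : r ^ 2 * rs * (Ars c c' v2 v3 y ys / rs + 2 / r * Ar c p v2 y +
      ((1 - x ^ 2) * (zxx - (-(1 + kap c c' v3 * y) * yx) * (c * yx) / rs) - 2 * x * zx) / r ^ 2 +
      (vv c v0 p v2 y z - 1)) =
      r ^ 2 * Ars c c' v2 v3 y ys + 2 * r * rs * Ar c p v2 y +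
      rs * ((1 - x ^ 2) * zxx - 2 * x * zx) + (1 - x ^ 2) * ((1 + kap c c' v3 * y) * yx) * (c * yx) +
      r ^ 2 * rs * (vv c v0 p v2 y z - 1) := by
    field_simp
    ring
  have e2 : s ^ 2 * (-ys - 2 * y / s + z + ((1 - x ^ 2) * zxx - 2 * x * zx) / s ^ 2 +
      N2 s c c' p v2 v3 y ys z ((1 - x ^ 2) * zxx - 2 * x * zx) ((1 - x ^ 2) * yx ^ 2)) =
      -s ^ 2 * ys - 2 * s * y + s ^ 2 * z + ((1 - x ^ 2) * zxx - 2 * x * zx) +
      ((2 * s * (c * y) + (c * y) ^ 2) * (-ys + v3 * (c * y) + z + p * (c * y)) +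
       (s + c * y) ^ 2 * (dd c c' y ys * (z + p * (c * y)) -
        (1 + dd c c' y ys) * (ca c v2 * y * (c * y)) / 2) -
       2 * (c * y + s * dd c c' y ys + c * y * dd c c' y ys) * (ca c v2 * y) -
       2 * (c * y / s + dd c c' y ys + c * y / s * dd c c' y ys) * (p * (c * y)) +
       dd c c' y ys * ((1 - x ^ 2) * zxx - 2 * x * zx) + c * (1 + kap c c' v3 * y) * ((1 - x ^ 2) * yx ^ 2)) := by
    unfold N2
    field_simp
    ring
  rw [e1, e2, hr, hrs]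
  have h0' : s * v2 + 2 * p + s * (v0 - 1) = 0 := by
    refine mul_left_cancel₀ hs ?_
    linear_combination h0
  unfold Ars Ar vv cas ca dd kap
  field_simp
  linear_combination (2 * (s + c * y) ^ 2 * (1 + (c' * y + c * ys))) * h0' + (2 * s * (c * y)) * h1

end Pool.Agent.H97.SF
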